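import Pool.Agent.H893.DD.Asm3
import Pool.Agent.H893.DD.Stm6
import Pool.Graph.R_seed8.R187.CT.Base
import Pool.Graph.R_pool_sql_team_seeded_2aa45f1a.Q299.TD.Cls

/-!
# Descent from finite subextensions of the henselization
-/

set_option autoImplicit false
set_option linter.unusedVariables false
set_option linter.unusedSectionVars false

universe u

namespace Pool.Agent.H893.EC

open IsLocalRing Pool.Agent.W418.LU2 Pool.Agent.TH188.QS Polynomial
open Pool.Agent.H176.DT (Mod SU PP St)
open Pool.Agent.R187.CT (Good rg fr_mono fr_closure noe_rg gp_move gp_of_su)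
open Pool.Agent.H893.DD

section desc

variable {F F1 : Type u} [Field F] [Field F1] [Algebra F F1]

lemma mem_of_monic {V : ValuationSubring F1} {ζ : F1} {h : F[X]} (hm : h.Monic)
    (hc : ∀ i, algebraMap F F1 (h.coeff i) ∈ V) (hr : aeval ζ h = 0) : ζ ∈ V := by
  let g : V[X] := ∑ i ∈ Finset.range (h.natDegree + 1),
    C (⟨algebraMap F F1 (h.coeff i), hc i⟩ : V) * X ^ i
  have hg : g.map (algebraMap V F1) = h.map (algebraMap F F1) := by
    rw [Polynomial.map_sum]
    conv_rhs => rw [h.as_sum_range_C_mul_X_pow, Polynomial.map_sum]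
    refine Finset.sum_congr rfl fun i _ => ?_
    rw [Polynomial.map_mul, Polynomial.map_pow, map_C, map_X, Polynomial.map_mul,
      Polynomial.map_pow, map_C, map_X]
    rfl
  have hgm : g.Monic := by
    have h1 : (g.map (algebraMap V F1)).Monic := by
      rw [hg]
      exact hm.map _
    exact Polynomial.monic_of_injective (IsFractionRing.injective V F1) h1
  have hint : IsIntegral V ζ := by
    refine ⟨g, hgm, ?_⟩
    rw [← Polynomial.eval_map, hg, Polynomial.eval_map]
    exact hr
  obtain ⟨y, hy⟩ := (IsIntegrallyClosed.isIntegral_iff (R := V) (K := F1)).1 hint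
  rw [← hy]
  exact y.2

/-- Descent of strong uniformization, for all models. -/
theorem good_desc {R : Type u} [CommRing R] (hR : HJ R) (ρ : R →+* F) (V : ValuationSubring F1)
    (hρV : ∀ a, algebraMap F F1 (ρ a) ∈ V)
    (hFf : ∃ S : Set F, S.Finite ∧ ∀ z, Fr (rg ρ S) z) (ζ : F1)
    (hgen : ∀ z : F1, ∃ f : F[X], aeval ζ f = z)
    (hcoef : ∀ i, algebraMap F F1 ((minpoly F ζ).coeff i) ∈ V)
    (hder : V.valuation (aeval ζ (derivative (minpoly F ζ))) = 1) (a : F)
    (hres : V.valuation (ζ - algebraMap F F1 a) < 1)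
    (harch : ∀ a b : F1, b ≠ 0 → a ∈ V → a⁻¹ ∉ V → ∃ N : ℕ, a ^ N * b⁻¹ ∈ V)
    (hnt : ∃ a : F, algebraMap F F1 a ∈ V ∧ algebraMap F F1 a⁻¹ ∉ V)
    (hrr : ∃ (r : ℕ) (γ : Fin r → F), (∀ i, γ i ≠ 0) ∧ ∀ z : F1, z ≠ 0 → ∃ n : ℕ, 0 < n ∧
      ∃ m : Fin r → ℤ, V.valuation z ^ n = V.valuation (algebraMap F F1 (mo γ m)))
    (hG : Good ((algebraMap F F1).comp ρ) V) : Good ρ (V.comap (algebraMap F F1)) := by
  classical
  obtain ⟨T₀, hT₀f, hT₀⟩ := hG
  obtain ⟨S, hSf, hS⟩ := hFf
  obtain ⟨r, γ, hγ, hrr⟩ := hrr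
  set h := minpoly F ζ with hh
  have hint : IsIntegral F ζ := by
    by_contra h1
    rw [hh, minpoly.eq_zero h1, derivative_zero, map_zero, map_zero] at hder
    exact zero_ne_one hder
  have hmon : h.Monic := minpoly.monic hint
  have hroot : aeval ζ h = 0 := minpoly.aeval F ζ
  have hmin : ∀ q : F[X], q.degree < h.degree → aeval ζ q = 0 → q = 0 := by
    intro q hq hq0
    by_contra h1
    exact absurd hq (not_lt.2 (minpoly.degree_le_of_ne_zero F ζ h1 hq0))
  have hζV : ζ ∈ V := mem_of_monic hmon hcoef hroot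
  have haV : algebraMap F F1 a ∈ V := by
    have h1 : algebraMap F F1 a = ζ - (ζ - algebraMap F F1 a) := by ring
    rw [h1]
    exact V.sub_mem hζV ((V.valuation_le_one_iff _).1 hres.le)
  set W := V.comap (algebraMap F F1) with hW
  set U₀ : Set F := insert a (Set.range fun i : Fin (h.natDegree + 1) => h.coeff i) with hU₀
  have hU₀f : U₀.Finite := (Set.finite_range _).insert _
  have hU₀W : ∀ u ∈ U₀, u ∈ W := by
    rintro u (rfl | ⟨i, rfl⟩)
    · exact haV
    · exact hcoef i
  refine ⟨S, hSf, fun T hT hTW hTF => ?_⟩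
  have hTall : ∀ z, Fr (rg ρ T) z := fun z =>
    fr_closure ρ (fun a ha => Subring.subset_closure (Or.inl ha)) hTF (hS z)
  refine gp_move hU₀f (fun u hu => ⟨hU₀W u hu, hTall u⟩) ?_
  rw [closure_closure_union, Set.union_assoc]
  set A := Subring.closure ((ρ.range : Set F) ∪ (T ∪ U₀)) with hA
  have hTA : rg ρ T ≤ A := Subring.closure_mono (Set.union_subset_union_right _
    Set.subset_union_left)
  have hAW : A ≤ W.toSubring := by
    rw [hA, Subring.closure_le]
    rintro z (hz | hz | hz)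
    · exact hTW (Subring.subset_closure (Or.inl hz))
    · exact hTW (Subring.subset_closure (Or.inr hz))
    · exact hU₀W z hz
  have hnA : IsNoetherianRing A := noe_rg hR ρ (hT.union hU₀f)
  have hAfr : ∀ z, Fr A z := fun z => fr_mono hTA (hTall z)
  have hEt : Et V ζ h A :=
    { BV := hAW
      monic := hmon
      coeff := by
        intro i
        by_cases hi : i < h.natDegree + 1
        · exact Subring.subset_closure (Or.inr (Or.inr (Or.inr ⟨⟨i, hi⟩, rfl⟩)))
        · rw [coeff_eq_zero_of_natDegree_lt (by omega)]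
          exact zero_mem _
      root := hroot
      der := hder
      min := hmin
      gen := hgen
      frac := hAfr
      noe := hnA }
  -- the model of the extension
  set ρ₁ := (algebraMap F F1).comp ρ with hρ₁
  set T' : Set F1 := algebraMap F F1 '' (T ∪ U₀) ∪ {ζ} with hT'
  have hT'f : T'.Finite := ((hT.union hU₀f).image _).union (Set.finite_singleton _)
  have hZ : Az ζ A = rg ρ₁ T' := by
    change Subring.closure ((A.map (algebraMap F F1) : Set F1) ∪ {ζ}) =
      Subring.closure ((ρ₁.range : Set F1) ∪ T')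
    rw [hA, RingHom.map_closure, closure_closure_union, hT', Set.image_union, Set.union_assoc]
    congr 2
    ext z
    constructor
    · rintro ⟨_, ⟨a, rfl⟩, rfl⟩
      exact ⟨a, rfl⟩
    · rintro ⟨a, rfl⟩
      exact ⟨_, ⟨a, rfl⟩, rfl⟩
  have hAZ : ∀ z ∈ A, algebraMap F F1 z ∈ Az ζ A := fun z hz =>
    Subring.subset_closure (Or.inl ⟨z, hz, rfl⟩)
  have hζZ : ζ ∈ Az ζ A := Subring.subset_closure (Or.inr rfl)
  have hZV : Az ζ A ≤ V.toSubring := by
    rw [Subring.closure_le]
    rintro z (⟨z, hz, rfl⟩ | hz)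
    · exact hAW hz
    · rw [Set.mem_singleton_iff.1 hz]
      exact hζV
  have hZM : Mod V (Az ζ A) := by
    refine mod_of_clos hZV fun z => ?_
    obtain ⟨f, rfl⟩ := hgen z
    rw [aeval_eq_sum_range]
    refine sum_mem fun i _ => ?_
    rw [Algebra.smul_def]
    refine mul_mem ?_ (pow_mem (Subfield.subset_closure hζZ) _)
    obtain ⟨b, hb, c, hc, -, h6⟩ := hAfr (f.coeff i)
    rw [h6, map_mul, map_inv₀]
    exact mul_mem (Subfield.subset_closure (hAZ b hb)) (inv_mem (Subfield.subset_closure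
      (hAZ c hc)))
  have hSU : SU V (Az ζ A) := by
    rw [hZ] at hZM hZV ⊢
    have := noe_rg hR ρ₁ hT'f
    exact Pool.Agent.Q299.TD.su_of_gp hZM (hT₀ T' hT'f hZV fun t _ => hZM.2 t)
  have hfin := desc_su (V := V) (ζ := ζ) (t_coord t_colon (t_red t_alg1) t_ord) t_pos t_cmp h A
    hEt ⟨a, Subring.subset_closure (Or.inr (Or.inr (Or.inl rfl))), hres⟩
    harch hnt γ hγ hrr hSU
  exact gp_of_su hfin

end desc

end Pool.Agent.H893.EC
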