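import Pool.Agent.H893.EC.Main
import Pool.Agent.H893.EC.Desc
import Pool.Agent.H893.DD.Glue2

/-!
# Almost Abhyankar valuations over base rings
-/

set_option autoImplicit false
set_option linter.unusedVariables false
set_option linter.unusedSectionVars false

universe u

namespace Pool.Agent.H893.EC

open IsLocalRing Pool.Agent.W418.LU2 Pool.Agent.TH188.QS
open Pool.Agent.H176.DT (Mod SU PP St)
open Pool.Agent.R187.CT (Good rg fr_mono fr_closure noe_rg gp_move gp_of_su)
open Pool.Agent.H893.DD
open scoped NNReal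

/-- Almost Abhyankar valuations are good over every ring `R` whose fractions generate the ground
field. -/
theorem good_aa_ring {R k K : Type u} [CommRing R] [Field k] (p : ℕ) [Fact p.Prime] [CharP k p]
    (σ : R →+* k) (hσ : ∀ c : k, ∃ a b : R, σ b ≠ 0 ∧ c = σ a / σ b) [Field K]
    [Algebra k K] [Algebra.EssFiniteType k K] (v : Valuation K ℝ≥0)
    (hk : ∀ c : k, c ≠ 0 → v (algebraMap k K c) = 1)
    (hess : letI := rAlg v hk; Algebra.EssFiniteType k (Rf v))
    (hsg : letI := rAlg v hk;
      ∃ s : Finset (Rf v), IsTranscendenceBasis k ((↑) : s → Rf v) ∧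
        Algebra.IsSeparable (IntermediateField.adjoin k (s : Set (Rf v))) (Rf v))
    (r : ℕ) (hr : 2 ≤ r)
    (htr : letI := rAlg v hk; Algebra.trdeg k K =
      Algebra.trdeg k (Rf v) + ((r + 1 : ℕ) : Cardinal))
    (x : Fin r → K) (hx0 : ∀ i, x i ≠ 0)
    (hind : ∀ m : Fin r → ℤ, ∏ i, v (x i) ^ m i = 1 → m = 0)
    (hrr : ∀ z : K, z ≠ 0 → ∃ n : ℕ, n ≠ 0 ∧ ∃ m : Fin r → ℤ, v z ^ n = ∏ i, v (x i) ^ m i) :
    Good ((algebraMap k K).comp σ) v.valuationSubring := by
  obtain ⟨U, hU, hM, hSU⟩ := su_all p v hk hess hsg r hr htr x hx0 hind hrr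
  have hR : ((algebraMap k K).range : Set K) = Set.range (algebraMap k K) := rfl
  rw [← hR] at hM hSU
  have hNk : IsNoetherianRing (algebraMap k K).range :=
    isNoetherianRing_of_surjective k _ (algebraMap k K).rangeRestrict
      (algebraMap k K).rangeRestrict_surjective
  set ρ := (algebraMap k K).comp σ with hρ
  set V := v.valuationSubring with hV
  -- the ground field consists of fractions
  have hkA : ∀ (T : Set K) (c : k), algebraMap k K c ∈ lo V.toSubring (rg ρ T) := by
    intro T c
    obtain ⟨a, b, hb, rfl⟩ := hσ c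
    have hb' : ρ b ≠ 0 := (map_ne_zero (algebraMap k K)).2 hb
    refine ⟨ρ a, Subring.subset_closure (Or.inl ⟨a, rfl⟩), ρ b,
      Subring.subset_closure (Or.inl ⟨b, rfl⟩), hb', ?_, ?_⟩
    · change v (ρ b)⁻¹ ≤ 1
      rw [map_inv₀, hρ, RingHom.comp_apply, hk _ hb, inv_one]
    · rw [map_div₀, div_eq_mul_inv]
      rfl
  -- finite generation
  refine ⟨U, hU, fun T hT hTV hTU => ?_⟩
  set A := rg ρ T with hA
  set A' := Subring.closure (((algebraMap k K).range : Set K) ∪ T) with hA'
  have hle : A ≤ A' := by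
    rw [hA, Subring.closure_le]
    rintro z (⟨a, rfl⟩ | hz)
    · exact Subring.subset_closure (Or.inl ⟨σ a, rfl⟩)
    · exact Subring.subset_closure (Or.inr hz)
  have hle' : A' ≤ lo V.toSubring A := by
    rw [hA', Subring.closure_le]
    rintro z (⟨c, rfl⟩ | hz)
    · exact hkA T c
    · exact le_lo _ _ (Subring.subset_closure (Or.inr hz))
  have hloV : lo V.toSubring A ≤ V.toSubring := lo_le hTV
  have hfr : ∀ z, Fr A' z := by
    intro z
    refine fr_closure (algebraMap k K) (A := A') (S := U)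
      (fun a ha => Subring.subset_closure (Or.inl ha)) (fun u hu => fr_mono hle (hTU u hu)) ?_
    exact hM.2 z
  have hM' : Mod V A' := ⟨hle'.trans hloV, hfr⟩
  have hSU' : SU V A' := (su_model V (algebraMap k K).range U hU hM hSU A' T hT rfl hM').1
  exact gp_of_su (Pdown.SU_of hle hle' hSU')

end Pool.Agent.H893.EC
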