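import Pool.Agent.H893.EC.Cls

/-!
# Composites and towers over fields with separable residue fields: assembly
-/

set_option autoImplicit false
set_option linter.unusedVariables false
set_option linter.unusedSectionVars false

universe u

namespace Pool.Agent.H893.EC

open IsLocalRing Pool.Agent.W418.LU2 Pool.Agent.TH188.QS
open Pool.Agent.H176.DT (Mod SU PP St)
open Pool.Agent.R187.CT (Good rg)
open scoped NNReal

lemma hjF (k : Type u) [Field k] : HJ k := by
  refine Pool.Agent.TH188.QS.BR.hj ?_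
  intro 𝔭 h𝔭
  have h1 : 𝔭.IsMaximal := by
    rcases Ideal.eq_bot_or_top 𝔭 with h2 | h2
    · rw [h2]; exact Ideal.bot_isMaximal
    · exact absurd h2 h𝔭.ne_top
  exact Or.inl ((Ideal.Quotient.maximal_ideal_iff_isField_quotient 𝔭).1 h1)

lemma range_union {k K : Type u} [CommRing k] [Field K] (ρ : k →+* K) (T : Set K) :
    Subring.closure ((ρ.range : Set K) ∪ T) = Subring.closure (Set.range ρ ∪ T) := by
  rw [RingHom.coe_range]

/-- Almost Abhyankar valuations are good if the residue field is separable. -/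
theorem good_aa {k K : Type u} [Field k] (p : ℕ) [Fact p.Prime] [CharP k p] [Field K]
    [Algebra k K] [Algebra.EssFiniteType k K] (v : Valuation K ℝ≥0)
    (hk : ∀ c : k, c ≠ 0 → v (algebraMap k K c) = 1)
    (hess : letI := Pool.Agent.H893.DD.rAlg v hk;
      Algebra.EssFiniteType k (Pool.Agent.H893.DD.Rf v))
    (hsg : letI := Pool.Agent.H893.DD.rAlg v hk;
      ∃ s : Finset (Pool.Agent.H893.DD.Rf v),
        IsTranscendenceBasis k ((↑) : s → Pool.Agent.H893.DD.Rf v) ∧
        Algebra.IsSeparable (IntermediateField.adjoin k (s : Set (Pool.Agent.H893.DD.Rf v)))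
          (Pool.Agent.H893.DD.Rf v))
    (r : ℕ) (hr : 2 ≤ r)
    (htr : letI := Pool.Agent.H893.DD.rAlg v hk; Algebra.trdeg k K =
      Algebra.trdeg k (Pool.Agent.H893.DD.Rf v) + ((r + 1 : ℕ) : Cardinal))
    (x : Fin r → K) (hx0 : ∀ i, x i ≠ 0)
    (hind : ∀ m : Fin r → ℤ, ∏ i, v (x i) ^ m i = 1 → m = 0)
    (hrr : ∀ z : K, z ≠ 0 → ∃ n : ℕ, n ≠ 0 ∧ ∃ m : Fin r → ℤ, v z ^ n = ∏ i, v (x i) ^ m i) :
    Good (algebraMap k K) v.valuationSubring := by
  refine Pool.Agent.R187.CT.good_given (hjF k) _ _ ?_ ?_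
  · obtain ⟨S, hS, hSV, hSM⟩ := Pool.Agent.H893.DD.exists_mod (k := k) v hk
    refine ⟨S, hS, fun z => ?_⟩
    exact (hSM (rg (algebraMap k K) S) (fun c => Subring.subset_closure
      (Or.inl ⟨c, rfl⟩)) (fun s hs => Subring.subset_closure (Or.inr hs)) (by
        rw [Subring.closure_le]
        rintro z (⟨c, rfl⟩ | hz)
        · exact Pool.Agent.H893.DD.kV_mem v hk c
        · exact hSV z hz)).2 z
  · intro T hT hTV hTK
    exact Pool.Agent.H893.DD.lu_all p v hk hess hsg r hr htr x hx0 hind hrr T hT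
      (rg (algebraMap k K) T) (range_union _ T) ⟨hTV, hTK⟩

/-- Almost Abhyankar valuations are good if MacLane's condition holds for the residue field. -/
theorem good_mcl {k K : Type u} [Field k] (p : ℕ) [Fact p.Prime] [CharP k p] [Field K]
    [Algebra k K] [Algebra.EssFiniteType k K] (v : Valuation K ℝ≥0)
    (hk : ∀ c : k, c ≠ 0 → v (algebraMap k K c) = 1)
    (hess : letI := Pool.Agent.H893.DD.rAlg v hk;
      Algebra.EssFiniteType k (Pool.Agent.H893.DD.Rf v))
    (hm : McLV p (algebraMap k K) v.valuationSubring)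
    (r : ℕ) (hr : 2 ≤ r)
    (htr : letI := Pool.Agent.H893.DD.rAlg v hk; Algebra.trdeg k K =
      Algebra.trdeg k (Pool.Agent.H893.DD.Rf v) + ((r + 1 : ℕ) : Cardinal))
    (x : Fin r → K) (hx0 : ∀ i, x i ≠ 0)
    (hind : ∀ m : Fin r → ℤ, ∏ i, v (x i) ^ m i = 1 → m = 0)
    (hrr : ∀ z : K, z ≠ 0 → ∃ n : ℕ, n ≠ 0 ∧ ∃ m : Fin r → ℤ, v z ^ n = ∏ i, v (x i) ^ m i) :
    Good (algebraMap k K) v.valuationSubring := by
  refine good_aa p v hk hess ?_ r hr htr x hx0 hind hrr
  let _ := Pool.Agent.H893.DD.rAlg v hk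
  have : Algebra.EssFiniteType k (Pool.Agent.H893.DD.Rf v) := hess
  have h1 : McL p (algebraMap k (Pool.Agent.H893.DD.Rf v)) :=
    hm.res (Pool.Agent.H893.DD.kV_mem v hk)
  exact h1.sepGen

/-- The large field `k` is existentially closed in a field with a rational place which is good. -/
theorem ec_of_good {k K : Type u} [Field k] [Field K] [Algebra k K]
    (hk : Pool.Agent.N102.EC.ExClosed k (LaurentSeries k)) (V : ValuationSubring K)
    (hkV : ∀ a : k, algebraMap k K a ∈ V)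
    (hV : ∀ a ∈ V, ∃ c : k, V.valuation (a - algebraMap k K c) < 1)
    (hK : ∃ S : Set K, S.Finite ∧ ∀ z, Fr (rg (algebraMap k K) S) z)
    (h : Good (algebraMap k K) V) : Pool.Agent.N102.EC.ExClosed k K := by
  obtain ⟨T₁, hT₁f, hT₁⟩ := h
  obtain ⟨S, hSf, hSV, hSE⟩ := Pool.Agent.R187.CT.exists_model (algebraMap k K) V hkV hK
  have hnoe := Pool.Agent.R187.CT.noe_rg (hjF k) (algebraMap k K) hSf
  have hGP := hT₁ S hSf hSV fun t _ => hSE t
  have hLU : LogUnif V (rg (algebraMap k K) S) := hGP.logUnif hSV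
  have hSU : SU V (rg (algebraMap k K) S) :=
    Pool.Agent.H176.DT.p_base V (rg (algebraMap k K) S) ⟨hSV, hSE⟩ hLU
  obtain ⟨T, n, x, hSt, -⟩ := hSU ∅ Set.finite_empty (fun g hg => hg.elim)
  exact Pool.Agent.N102.EC.ec_of_stage Pool.Agent.N37.EC.t_dvr Pool.Agent.N765.EC.t_quot hk V hV
    (rg (algebraMap k K) S) T x hSt (fun c => Subring.subset_closure (Or.inl ⟨c, rfl⟩)) hSE

end Pool.Agent.H893.EC
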