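import Pool.Agent.H893.EC.Sep
import Pool.Agent.H893.DD.Glue
import Pool.Graph.R_seed8.R187.CT.Base
import Pool.Graph.R_pool_sql_team_seeded_b0a926ef.Results.MP_53121e_ag.CompositesAndTowers
import Pool.Graph.R_pool_sql_team_seeded_63374d34.N102.EC.Sys
import Pool.Graph.R_pool_sql_team_seeded_63374d34.N37.EC.Dvr
import Pool.Graph.R_pool_sql_team_seeded_63374d34.N765.EC.QUOT

/-!
# Composites and towers over fields with separable residue fields
-/

set_option autoImplicit false
set_option linter.unusedVariables false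
set_option linter.unusedSectionVars false

universe u

namespace Pool.Agent.H893.EC

open IsLocalRing Pool.Agent.W418.LU2 Pool.Agent.TH188.QS
open Pool.Agent.H176.DT (Mod SU PP St)
open scoped NNReal

/-- MacLane's condition for the residue field of a valuation ring. -/
def McLV (p : ℕ) {k K : Type u} [Field k] [Field K] (ρ : k →+* K) (V : ValuationSubring K) :
    Prop :=
  ∀ (n : ℕ) (b : Fin n → k), (∀ d : Fin n → k, ∑ i, b i * d i ^ p = 0 → d = 0) →
    ∀ y : Fin n → K, (∀ i, y i ∈ V) → V.valuation (∑ i, ρ (b i) * y i ^ p) < 1 →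
      ∀ i, V.valuation (y i) < 1

lemma McLV.res {p : ℕ} {k K : Type u} [Field k] [Field K] {ρ : k →+* K}
    {V : ValuationSubring K} (h : McLV p ρ V) (hρ : ∀ a, ρ a ∈ V.toSubring) :
    McL p (rmap ρ V hρ) := by
  intro n b hb y hy
  choose z hz using fun i => residue_surjective (R := V) (y i)
  have h1 : residue V (∑ i, (ρ.codRestrict V.toSubring hρ (b i) : V) * z i ^ p) = 0 := by
    rw [map_sum, ← hy]
    exact Finset.sum_congr rfl fun i _ => by rw [map_mul, map_pow, hz]; rfl
  have h2 : V.valuation (∑ i, ρ (b i) * (z i : K) ^ p) < 1 := by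
    have h3 := (V.valuation_lt_one_iff _).1 ((residue_eq_zero_iff _).1 h1)
    have h4 : ((∑ i, (ρ.codRestrict V.toSubring hρ (b i) : V) * z i ^ p : V) : K) =
        ∑ i, ρ (b i) * (z i : K) ^ p := by
      change V.subtype (∑ i, (ρ.codRestrict V.toSubring hρ (b i) : V) * z i ^ p) = _
      rw [map_sum]
      rfl
    rw [h4] at h3
    exact h3
  have h5 := h n b hb (fun i => (z i : K)) (fun i => (z i).2) h2
  funext i
  rw [← hz i, Pi.zero_apply, residue_eq_zero_iff]
  exact (V.valuation_lt_one_iff _).2 (h5 i)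

lemma mcLV_of_res {p : ℕ} {k K : Type u} [Field k] [Field K] {ρ : k →+* K}
    {V : ValuationSubring K} {hρ : ∀ a, ρ a ∈ V.toSubring} (h : McL p (rmap ρ V hρ)) :
    McLV p ρ V := by
  intro n b hb y hyV hy
  let z : Fin n → V := fun i => ⟨y i, hyV i⟩
  have h4 : ((∑ i, (ρ.codRestrict V.toSubring hρ (b i) : V) * z i ^ p : V) : K) =
      ∑ i, ρ (b i) * (y i) ^ p := by
    change V.subtype (∑ i, (ρ.codRestrict V.toSubring hρ (b i) : V) * z i ^ p) = _
    rw [map_sum]
    rfl
  have h1 : residue V (∑ i, (ρ.codRestrict V.toSubring hρ (b i) : V) * z i ^ p) = 0 := by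
    rw [residue_eq_zero_iff]
    refine (V.valuation_lt_one_iff _).2 ?_
    rw [h4]
    exact hy
  have h2 := h n b hb (fun i => residue V (z i)) (by
    rw [map_sum] at h1
    rw [← h1]
    exact Finset.sum_congr rfl fun i _ => by rw [map_mul, map_pow]; rfl)
  intro i
  have h3 := congrFun h2 i
  rw [Pi.zero_apply] at h3
  exact (V.valuation_lt_one_iff (z i)).1 ((residue_eq_zero_iff _).1 h3)

lemma McLV.field {p : ℕ} {k K : Type u} [Field k] [Field K] {ρ : k →+* K}
    {V : ValuationSubring K} (h : McLV p ρ V) (hρ : ∀ a, ρ a ∈ V.toSubring) : McL p ρ :=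
  (h.res hρ).lift

lemma McLV.of_le_range {p : ℕ} [Fact p.Prime] {k K : Type u} [Field k] [Field K] {ρ : k →+* K}
    {V : ValuationSubring K} (hρ : ∀ a, ρ a ∈ V.toSubring)
    (h : ∀ a ∈ V, ∃ c : k, V.valuation (a - ρ c) < 1) : McLV p ρ V := by
  refine mcLV_of_res (hρ := hρ) (McL.of_surj fun y => ?_)
  obtain ⟨z, rfl⟩ := residue_surjective (R := V) y
  obtain ⟨c, hc⟩ := h z z.2
  refine ⟨c, ?_⟩
  symm
  rw [← sub_eq_zero]
  change residue V z - residue V (ρ.codRestrict V.toSubring hρ c) = 0
  rw [← map_sub, residue_eq_zero_iff]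
  exact (V.valuation_lt_one_iff _).2 hc

/-- The residue fields of composites. -/
lemma McLV.comp {p : ℕ} {k K : Type u} [Field k] [Field K] {ρ : k →+* K}
    {V V₁ : ValuationSubring K} {W : ValuationSubring (ResidueField V₁)}
    (hρ : ∀ a, ρ a ∈ V₁.toSubring) (hVW : Cmp V V₁ W) (h : McLV p ρ V) :
    McLV p (rmap ρ V₁ hρ) W := by
  have key : ∀ (z : K) (hz : z ∈ V₁), residue V₁ ⟨z, hz⟩ ∈ W →
      (V.valuation z < 1 ↔ W.valuation (residue V₁ ⟨z, hz⟩) < 1) := by
    intro z hz hzW
    have hzV : z ∈ V := (hVW z).2 ⟨hz, hzW⟩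
    rw [← not_iff_not, not_lt, not_lt]
    constructor
    · intro h1
      have h2 : z ≠ 0 := by
        rintro rfl
        rw [map_zero] at h1
        exact absurd h1 (not_le.2 zero_lt_one)
      have h3 : z⁻¹ ∈ V := by
        rw [← V.valuation_le_one_iff, map_inv₀]
        exact inv_le_one_of_one_le₀ h1
      obtain ⟨h4, h5⟩ := (hVW _).1 h3
      have h6 : residue V₁ ⟨z, hz⟩ * residue V₁ ⟨z⁻¹, h4⟩ = 1 := by
        rw [← map_mul, ← map_one (residue V₁)]
        congr 1
        exact Subtype.ext (mul_inv_cancel₀ h2)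
      have h7 : W.valuation (residue V₁ ⟨z, hz⟩) * W.valuation (residue V₁ ⟨z⁻¹, h4⟩) = 1 := by
        rw [← map_mul, h6, map_one]
      have h8 := (W.valuation_le_one_iff _).2 h5
      by_contra h9
      rw [not_le] at h9
      have := mul_lt_one_of_lt_of_le h9 h8
      rw [h7] at this
      exact lt_irrefl _ this
    · intro h1
      by_contra h9
      rw [not_le] at h9
      by_cases h2 : z = 0
      · subst h2
        have h3 : residue V₁ ⟨0, hz⟩ = 0 := map_zero _
        rw [h3, map_zero] at h1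
        exact absurd h1 (not_le.2 zero_lt_one)
      · have h3 : residue V₁ ⟨z, hz⟩ ≠ 0 := by
          intro h
          rw [h, map_zero] at h1
          exact absurd h1 (not_le.2 zero_lt_one)
        have h4 : z⁻¹ ∈ V₁ := by
          have h5 : ¬ V₁.valuation z < 1 := fun h =>
            h3 ((residue_eq_zero_iff _).2 ((V₁.valuation_lt_one_iff ⟨z, hz⟩).2 h))
          rw [not_lt] at h5
          rw [← V₁.valuation_le_one_iff, map_inv₀]
          exact inv_le_one_of_one_le₀ h5
        have h6 : residue V₁ ⟨z⁻¹, h4⟩ = (residue V₁ ⟨z, hz⟩)⁻¹ := by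
          refine eq_inv_of_mul_eq_one_left ?_
          rw [← map_mul, ← map_one (residue V₁)]
          congr 1
          exact Subtype.ext (inv_mul_cancel₀ h2)
        have h7 : z⁻¹ ∈ V := by
          refine (hVW _).2 ⟨h4, ?_⟩
          rw [h6, ← W.valuation_le_one_iff, map_inv₀]
          exact inv_le_one_of_one_le₀ h1
        have h8 := (V.valuation_le_one_iff _).2 h7
        rw [map_inv₀] at h8
        have h10 : V.valuation z * (V.valuation z)⁻¹ < 1 := mul_lt_one_of_lt_of_le h9 h8
        rw [mul_inv_cancel₀ ((Valuation.ne_zero_iff _).2 h2)] at h10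
        exact lt_irrefl _ h10
  intro n b hb y hyW hy
  choose z hz using fun i => residue_surjective (R := V₁) (y i)
  have hzV : ∀ i, (z i : K) ∈ V := fun i => (hVW _).2 ⟨(z i).2, by
    have h1 : residue V₁ ⟨(z i : K), (z i).2⟩ = y i := hz i
    rw [h1]
    exact hyW i⟩
  have hsum : (∑ i, ρ (b i) * (z i : K) ^ p) =
      ((∑ i, (ρ.codRestrict V₁.toSubring hρ (b i) : V₁) * z i ^ p : V₁) : K) := by
    change _ = V₁.subtype (∑ i, (ρ.codRestrict V₁.toSubring hρ (b i) : V₁) * z i ^ p)
    rw [map_sum]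
    rfl
  have hsum' : residue V₁ (∑ i, (ρ.codRestrict V₁.toSubring hρ (b i) : V₁) * z i ^ p) =
      ∑ i, rmap ρ V₁ hρ (b i) * y i ^ p := by
    rw [map_sum]
    exact Finset.sum_congr rfl fun i _ => by rw [map_mul, map_pow, hz]; rfl
  have h1 : V.valuation (∑ i, ρ (b i) * (z i : K) ^ p) < 1 := by
    rw [hsum]
    refine (key _ (∑ i, (ρ.codRestrict V₁.toSubring hρ (b i) : V₁) * z i ^ p : V₁).2 ?_).2 ?_
    · change residue V₁ (∑ i, (ρ.codRestrict V₁.toSubring hρ (b i) : V₁) * z i ^ p) ∈ W
      rw [hsum', ← W.valuation_le_one_iff]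
      exact hy.le
    · change W.valuation (residue V₁
        (∑ i, (ρ.codRestrict V₁.toSubring hρ (b i) : V₁) * z i ^ p)) < 1
      rw [hsum']
      exact hy
  intro i
  have h2 := h n b hb (fun i => (z i : K)) hzV h1 i
  have h3 := (key _ (z i).2 (by
    have h1 : residue V₁ ⟨(z i : K), (z i).2⟩ = y i := hz i
    rw [h1]
    exact hyW i)).1 h2
  have h1 : residue V₁ ⟨(z i : K), (z i).2⟩ = y i := hz i
  rw [h1] at h3
  exact h3

/-- The residue fields of subfields. -/
lemma McLV.tower {p : ℕ} {k E K : Type u} [Field k] [Field E] [Field K] [Algebra E K]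
    {ρ : k →+* E} {V : ValuationSubring K} (h : McLV p ((algebraMap E K).comp ρ) V) :
    McLV p ρ (V.comap (algebraMap E K)) := by
  have key : ∀ z : E, (V.comap (algebraMap E K)).valuation z < 1 ↔
      V.valuation (algebraMap E K z) < 1 := by
    intro z
    by_cases hz : z = 0
    · rw [hz, map_zero, map_zero, map_zero]
      exact ⟨fun _ => zero_lt_one, fun _ => zero_lt_one⟩
    · have h0 : algebraMap E K z ≠ 0 := (map_ne_zero _).2 hz
      rw [← not_iff_not, not_lt, not_lt]
      have e1 : 1 ≤ (V.comap (algebraMap E K)).valuation z ↔ z⁻¹ ∈ V.comap (algebraMap E K) := by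
        rw [← ValuationSubring.valuation_le_one_iff, map_inv₀]
        exact (inv_le_one₀ (zero_lt_iff.2 ((Valuation.ne_zero_iff _).2 hz))).symm
      have e2 : 1 ≤ V.valuation (algebraMap E K z) ↔ (algebraMap E K z)⁻¹ ∈ V := by
        rw [← ValuationSubring.valuation_le_one_iff, map_inv₀]
        exact (inv_le_one₀ (zero_lt_iff.2 ((Valuation.ne_zero_iff _).2 h0))).symm
      rw [e1, e2, ValuationSubring.mem_comap, map_inv₀]
  intro n b hb y hyV hy i
  rw [key]
  refine h n b hb (fun i => algebraMap E K (y i)) hyV ?_ i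
  rw [key, map_sum] at hy
  refine lt_of_eq_of_lt ?_ hy
  congr 1
  exact Finset.sum_congr rfl fun i _ => by rw [map_mul, map_pow]; rfl

end Pool.Agent.H893.EC
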