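import Pool.Agent.H893.EC.Cls
import Pool.Agent.H893.EC.Desc
import Pool.Agent.H893.DD.P_rank

/-!
# Density in finite subextensions of the henselization
-/

set_option autoImplicit false
set_option linter.unusedVariables false
set_option linter.unusedSectionVars false

universe u

namespace Pool.Agent.H893.EC

open IsLocalRing Pool.Agent.W418.LU2 Pool.Agent.TH188.QS Polynomial

section dense

variable {F L : Type u} [Field F] [Field L] [Algebra F L]

/-- A polynomial over the valuation ring. -/
lemma exists_polyV {V : ValuationSubring L} {g : L[X]} (hg : ∀ i, g.coeff i ∈ V) :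
    ∃ G : V[X], G.map (algebraMap V L) = g := by
  refine ⟨∑ i ∈ Finset.range (g.natDegree + 1), C (⟨g.coeff i, hg i⟩ : V) * X ^ i, ?_⟩
  rw [Polynomial.map_sum]
  conv_rhs => rw [g.as_sum_range_C_mul_X_pow]
  refine Finset.sum_congr rfl fun i _ => ?_
  rw [Polynomial.map_mul, Polynomial.map_pow, map_C, map_X]
  rfl

lemma eval_coe {V : ValuationSubring L} (G : V[X]) (x : V) :
    ((G.eval x : V) : L) = (G.map (algebraMap V L)).eval (x : L) := by
  have h := Polynomial.eval_map_algebraMap G (x : L)
  rw [h]
  have h2 := Polynomial.aeval_algebraMap_apply (A := V) (B := L) x G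
  change aeval ((algebraMap V L) x) G = _ at h2
  rw [Polynomial.aeval_def, Polynomial.eval₂_eq_eval_map] at h2
  change _ = aeval ((algebraMap V L) x) G
  rw [Polynomial.aeval_algebraMap_apply, Polynomial.coe_aeval_eq_eval]
  rfl

/-- The approximations by Newton's method. -/
theorem newton {V : ValuationSubring L} {ζ : L} {h : F[X]} (hm : h.Monic)
    (hc : ∀ i, algebraMap F L (h.coeff i) ∈ V) (hr : aeval ζ h = 0)
    (hd : V.valuation (aeval ζ (derivative h)) = 1) {a : F}
    (ha : V.valuation (ζ - algebraMap F L a) < 1) (n : ℕ) :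
    ∃ b : F, V.valuation (ζ - algebraMap F L b) ≤ V.valuation (ζ - algebraMap F L a) ^ (n + 1) := by
  have hζV : ζ ∈ V := mem_of_monic hm hc hr
  obtain ⟨G, hG⟩ := exists_polyV (V := V) (g := h.map (algebraMap F L)) (fun i => by
    rw [coeff_map]; exact hc i)
  set z : V := ⟨ζ, hζV⟩ with hz
  have hev : ∀ x : V, ((G.eval x : V) : L) = (h.map (algebraMap F L)).eval (x : L) := fun x => by
    rw [eval_coe, hG]
  have hev' : ∀ x : V, ((G.derivative.eval x : V) : L) =
      ((derivative h).map (algebraMap F L)).eval (x : L) := fun x => by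
    rw [eval_coe, ← derivative_map, hG, derivative_map]
  have hGz : G.eval z = 0 := by
    apply Subtype.ext
    rw [hev, Polynomial.eval_map_algebraMap]
    exact hr
  have hGz' : V.valuation ((G.derivative.eval z : V) : L) = 1 := by
    rw [hev', Polynomial.eval_map_algebraMap]
    exact hd
  induction n with
  | zero => exact ⟨a, by rw [zero_add, pow_one]⟩
  | succ n ih =>
    obtain ⟨b, hb⟩ := ih
    have hδ1 : V.valuation (ζ - algebraMap F L b) < 1 :=
      lt_of_le_of_lt hb (pow_lt_one₀ zero_le ha (by omega))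
    have hbV : algebraMap F L b ∈ V := by
      have h1 : algebraMap F L b = ζ - (ζ - algebraMap F L b) := by ring
      rw [h1]
      exact V.sub_mem hζV ((V.valuation_le_one_iff _).1 hδ1.le)
    set x : V := ⟨algebraMap F L b, hbV⟩ with hx
    obtain ⟨c, hcx⟩ := Polynomial.binomExpansion G z (x - z)
    obtain ⟨e, he⟩ := Polynomial.evalSubFactor G.derivative x z
    rw [add_sub_cancel, hGz, zero_add] at hcx
    -- the derivative at `x`
    have hder : V.valuation ((G.derivative.eval x : V) : L) = 1 := by
      have h1 : ((G.derivative.eval x : V) : L) =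
          ((G.derivative.eval z : V) : L) + ((e * (x - z) : V) : L) := by
        have h2 : G.derivative.eval x = G.derivative.eval z + e * (x - z) := by
          rw [← he]; ring
        rw [h2]
        rfl
      have h3 : V.valuation ((e * (x - z) : V) : L) < 1 := by
        have h4 : ((e * (x - z) : V) : L) = (e : L) * (-(ζ - algebraMap F L b)) := by
          change (e : L) * (algebraMap F L b - ζ) = _
          ring
        rw [h4, map_mul, Valuation.map_neg, mul_comm]
        exact mul_lt_one_of_lt_of_le hδ1 ((V.valuation_le_one_iff _).2 e.2)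
      rw [h1, Valuation.map_add_eq_of_lt_left _ (by rw [hGz']; exact h3), hGz']
    have hder0 : ((G.derivative.eval x : V) : L) ≠ 0 := by
      intro h0
      rw [h0, map_zero] at hder
      exact zero_ne_one hder
    have e1 : ((G.eval x : V) : L) = algebraMap F L (h.eval b) := by
      rw [hev, Polynomial.eval_map]
      exact Polynomial.eval₂_at_apply _ _
    have e2 : ((G.derivative.eval x : V) : L) = algebraMap F L ((derivative h).eval b) := by
      rw [hev', Polynomial.eval_map]
      exact Polynomial.eval₂_at_apply _ _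
    refine ⟨b - h.eval b / (derivative h).eval b, ?_⟩
    have key : ζ - algebraMap F L (b - h.eval b / (derivative h).eval b) =
        (ζ - algebraMap F L b) ^ 2 * (((c : V) : L) - (e : L)) /
          ((G.derivative.eval x : V) : L) := by
      have h5 : ((G.eval x : V) : L) = ((G.derivative.eval z : V) : L) * (algebraMap F L b - ζ) +
          (c : L) * (algebraMap F L b - ζ) ^ 2 := by
        rw [hcx]
        rfl
      have h6 : ((G.derivative.eval x : V) : L) - ((G.derivative.eval z : V) : L) =
          (e : L) * (algebraMap F L b - ζ) := by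
        have h7 := congrArg (fun w : V => (w : L)) he
        exact h7
      rw [map_sub, map_div₀, ← e1, ← e2, eq_div_iff hder0, sub_mul, sub_mul,
        div_mul_cancel₀ _ hder0, h5]
      linear_combination (ζ - algebraMap F L b) * h6
    rw [key, map_div₀, hder, div_one, map_mul, map_pow]
    have h8 : V.valuation (((c : V) : L) - (e : L)) ≤ 1 :=
      (V.valuation_le_one_iff _).2 (V.sub_mem c.2 e.2)
    calc V.valuation (ζ - algebraMap F L b) ^ 2 * V.valuation (((c : V) : L) - (e : L))
        ≤ V.valuation (ζ - algebraMap F L b) ^ 2 := mul_le_of_le_one_right' h8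
      _ ≤ (V.valuation (ζ - algebraMap F L a) ^ (n + 1)) ^ 2 := pow_le_pow_left₀ zero_le hb 2
      _ ≤ V.valuation (ζ - algebraMap F L a) ^ (n + 1 + 1) := by
        rw [← pow_mul]
        exact pow_le_pow_of_le_one zero_le ha.le (by omega)

/-- The residues of elements of a finite subextension of the henselization. -/
theorem dense_hens {V : ValuationSubring L} {ζ : L} {h : F[X]} (hm : h.Monic)
    (hc : ∀ i, algebraMap F L (h.coeff i) ∈ V) (hr : aeval ζ h = 0)
    (hd : V.valuation (aeval ζ (derivative h)) = 1) {a : F}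
    (ha : V.valuation (ζ - algebraMap F L a) < 1)
    (harch : ∀ a b : L, b ≠ 0 → a ∈ V → a⁻¹ ∉ V → ∃ N : ℕ, a ^ N * b⁻¹ ∈ V)
    (hgen : ∀ z : L, ∃ f : F[X], aeval ζ f = z) (z : L) :
    ∃ b : F, V.valuation (z - algebraMap F L b) < 1 := by
  classical
  obtain ⟨f, rfl⟩ := hgen z
  have hζV : ζ ∈ V := mem_of_monic hm hc hr
  by_cases hδ : ζ - algebraMap F L a = 0
  · refine ⟨f.eval a, ?_⟩
    have h1 : ζ = algebraMap F L a := sub_eq_zero.1 hδ
    rw [h1, Polynomial.aeval_algebraMap_apply, Polynomial.coe_aeval_eq_eval, sub_self, map_zero]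
    exact zero_lt_one
  -- a common denominator
  obtain ⟨c, hc0, hcV⟩ : ∃ c : F, c ≠ 0 ∧ ∀ i, algebraMap F L (c * f.coeff i) ∈ V := by
    have key : ∀ s : Finset ℕ, ∃ c : F, c ≠ 0 ∧ ∀ i ∈ s, algebraMap F L (c * f.coeff i) ∈ V := by
      intro s
      induction s using Finset.induction_on with
      | empty => exact ⟨1, one_ne_zero, fun i hi => absurd hi (Finset.notMem_empty i)⟩
      | insert j s hj ih =>
        obtain ⟨c, hc0, hcs⟩ := ih
        rcases V.mem_or_inv_mem (algebraMap F L (c * f.coeff j)) with h1 | h1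
        · refine ⟨c, hc0, fun i hi => ?_⟩
          rcases Finset.mem_insert.1 hi with rfl | hi
          · exact h1
          · exact hcs i hi
        · by_cases h0 : c * f.coeff j = 0
          · refine ⟨c, hc0, fun i hi => ?_⟩
            rcases Finset.mem_insert.1 hi with rfl | hi
            · rw [h0, map_zero]; exact V.zero_mem
            · exact hcs i hi
          · refine ⟨(c * f.coeff j)⁻¹ * c, mul_ne_zero (inv_ne_zero h0) hc0, fun i hi => ?_⟩
            rcases Finset.mem_insert.1 hi with rfl | hi
            · rw [mul_assoc, inv_mul_cancel₀ h0, map_one]; exact V.one_mem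
            · rw [mul_assoc, map_mul, map_inv₀]
              exact V.mul_mem _ _ h1 (hcs i hi)
    obtain ⟨c, hc0, hcs⟩ := key (Finset.range (f.natDegree + 1))
    refine ⟨c, hc0, fun i => ?_⟩
    by_cases hi : i < f.natDegree + 1
    · exact hcs i (Finset.mem_range.2 hi)
    · rw [coeff_eq_zero_of_natDegree_lt (by omega), mul_zero, map_zero]
      exact V.zero_mem
  have hcL : algebraMap F L c ≠ 0 := (_root_.map_ne_zero _).2 hc0
  have hai : (ζ - algebraMap F L a)⁻¹ ∉ V := by
    intro h1
    have h2 := (V.valuation_le_one_iff _).2 h1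
    rw [map_inv₀] at h2
    have h3 : V.valuation (ζ - algebraMap F L a) ≠ 0 := (Valuation.ne_zero_iff _).2 hδ
    have h4 := (inv_le_one₀ (zero_lt_iff.2 h3)).1 h2
    exact absurd ha (not_lt.2 h4)
  obtain ⟨N, hN⟩ := harch (ζ - algebraMap F L a) (algebraMap F L c) hcL
    ((V.valuation_le_one_iff _).1 ha.le) hai
  obtain ⟨b, hb⟩ := newton hm hc hr hd ha N
  have hδb : V.valuation (ζ - algebraMap F L b) < 1 :=
    lt_of_le_of_lt hb (pow_lt_one₀ zero_le ha (by omega))
  have hbV : algebraMap F L b ∈ V := by
    have h1 : algebraMap F L b = ζ - (ζ - algebraMap F L b) := by ring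
    rw [h1]
    exact V.sub_mem hζV ((V.valuation_le_one_iff _).1 hδb.le)
  obtain ⟨G, hG⟩ := exists_polyV (V := V) (g := (C c * f).map (algebraMap F L)) (fun i => by
    rw [coeff_map, coeff_C_mul]; exact hcV i)
  obtain ⟨w, hw⟩ := Polynomial.evalSubFactor G (⟨ζ, hζV⟩ : V) ⟨algebraMap F L b, hbV⟩
  refine ⟨f.eval b, ?_⟩
  have h1 : algebraMap F L c * (aeval ζ f - algebraMap F L (f.eval b)) =
      (w : L) * (ζ - algebraMap F L b) := by
    have h2 := congrArg (fun w : V => (w : L)) hw
    change ((G.eval _ : V) : L) - ((G.eval _ : V) : L) = (w : L) * (ζ - algebraMap F L b) at h2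
    rw [eval_coe, eval_coe, hG] at h2
    rw [← h2]
    change _ = ((C c * f).map (algebraMap F L)).eval ζ -
      ((C c * f).map (algebraMap F L)).eval (algebraMap F L b)
    rw [Polynomial.eval_map_algebraMap, Polynomial.eval_map_algebraMap, map_mul, aeval_C,
      map_mul, aeval_C, Polynomial.aeval_algebraMap_apply, Polynomial.coe_aeval_eq_eval]
    ring
  have h3 : V.valuation (aeval ζ f - algebraMap F L (f.eval b)) =
      V.valuation (algebraMap F L c)⁻¹ * (V.valuation (w : L) *
        V.valuation (ζ - algebraMap F L b)) := by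
    rw [← map_mul, ← h1, ← map_mul, inv_mul_cancel_left₀ hcL]
  rw [h3]
  have h4 : V.valuation (w : L) ≤ 1 := (V.valuation_le_one_iff _).2 w.2
  have h5 : V.valuation ((ζ - algebraMap F L a) ^ N * (algebraMap F L c)⁻¹) ≤ 1 :=
    (V.valuation_le_one_iff _).2 hN
  rw [map_mul, map_pow] at h5
  calc V.valuation (algebraMap F L c)⁻¹ * (V.valuation (w : L) *
        V.valuation (ζ - algebraMap F L b))
      ≤ V.valuation (algebraMap F L c)⁻¹ * V.valuation (ζ - algebraMap F L a) ^ (N + 1) :=
        mul_le_mul_right ((mul_le_of_le_one_left' h4).trans hb) _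
    _ = (V.valuation (ζ - algebraMap F L a) ^ N * V.valuation (algebraMap F L c)⁻¹) *
          V.valuation (ζ - algebraMap F L a) := by rw [pow_succ]; ac_rfl
    _ < 1 := by
        rw [mul_comm]
        exact mul_lt_one_of_lt_of_le ha h5

/-- MacLane's condition for finite subextensions of the henselization. -/
lemma McLV.hens {p : ℕ} {k : Type u} [Field k] {ρ : k →+* F} {V : ValuationSubring L}
    (hρ : ∀ a, algebraMap F L (ρ a) ∈ V)
    (hde : ∀ z : L, ∃ b : F, V.valuation (z - algebraMap F L b) < 1)
    (h : McLV p ρ (V.comap (algebraMap F L))) : McLV p ((algebraMap F L).comp ρ) V := by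
  have key : ∀ z : F, (V.comap (algebraMap F L)).valuation z < 1 ↔
      V.valuation (algebraMap F L z) < 1 := by
    intro z
    by_cases hz : z = 0
    · rw [hz, map_zero, map_zero, map_zero]
      exact ⟨fun _ => zero_lt_one, fun _ => zero_lt_one⟩
    · have h0 : algebraMap F L z ≠ 0 := (_root_.map_ne_zero _).2 hz
      rw [← not_iff_not, not_lt, not_lt]
      have e1 : 1 ≤ (V.comap (algebraMap F L)).valuation z ↔ z⁻¹ ∈ V.comap (algebraMap F L) := by
        rw [← ValuationSubring.valuation_le_one_iff, map_inv₀]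
        exact (inv_le_one₀ (zero_lt_iff.2 ((Valuation.ne_zero_iff _).2 hz))).symm
      have e2 : 1 ≤ V.valuation (algebraMap F L z) ↔ (algebraMap F L z)⁻¹ ∈ V := by
        rw [← ValuationSubring.valuation_le_one_iff, map_inv₀]
        exact (inv_le_one₀ (zero_lt_iff.2 ((Valuation.ne_zero_iff _).2 h0))).symm
      rw [e1, e2, ValuationSubring.mem_comap, map_inv₀]
  intro n b hb y hyV hy
  choose x hx using fun i => hde (y i)
  have hxV : ∀ i, x i ∈ V.comap (algebraMap F L) := by
    intro i
    rw [ValuationSubring.mem_comap]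
    have h1 : algebraMap F L (x i) = y i - (y i - algebraMap F L (x i)) := by ring
    rw [h1]
    exact V.sub_mem (hyV i) ((V.valuation_le_one_iff _).1 (hx i).le)
  -- the residues
  have hsum : V.valuation (∑ i, algebraMap F L (ρ (b i)) * algebraMap F L (x i) ^ p) < 1 := by
    have h1 : ∑ i, algebraMap F L (ρ (b i)) * algebraMap F L (x i) ^ p =
        ∑ i, algebraMap F L (ρ (b i)) * y i ^ p -
          ∑ i, algebraMap F L (ρ (b i)) * (y i ^ p - algebraMap F L (x i) ^ p) := by
      rw [← Finset.sum_sub_distrib]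
      exact Finset.sum_congr rfl fun i _ => by ring
    rw [h1]
    refine lt_of_le_of_lt (Valuation.map_sub _ _ _) (max_lt hy ?_)
    refine Valuation.map_sum_lt _ one_ne_zero fun i _ => ?_
    rw [map_mul, mul_comm]
    refine mul_lt_one_of_lt_of_le ?_ ((V.valuation_le_one_iff _).2 (hρ _))
    obtain ⟨w, hw⟩ := sub_dvd_pow_sub_pow (⟨y i, hyV i⟩ : V) ⟨algebraMap F L (x i), hxV i⟩ p
    have h2 := congrArg (fun w : V => (w : L)) hw
    change y i ^ p - algebraMap F L (x i) ^ p = (y i - algebraMap F L (x i)) * (w : L) at h2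
    rw [h2, map_mul]
    exact mul_lt_one_of_lt_of_le (hx i) ((V.valuation_le_one_iff _).2 w.2)
  have h3 := h n b hb x hxV (by
    rw [key, map_sum]
    refine lt_of_eq_of_lt ?_ hsum
    congr 1
    exact Finset.sum_congr rfl fun i _ => by rw [map_mul, map_pow])
  intro i
  have h4 := (key _).1 (h3 i)
  have h5 : y i = (y i - algebraMap F L (x i)) + algebraMap F L (x i) := by ring
  rw [h5]
  exact lt_of_le_of_lt (Valuation.map_add _ _ _) (max_lt (hx i) h4)

end dense

end Pool.Agent.H893.EC
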