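import Mathlib

/-!
# MacLane's condition and places
-/

set_option autoImplicit false
set_option linter.unusedVariables false
set_option linter.unusedSectionVars false

universe u

namespace Pool.Agent.H893.EC

open IsLocalRing

/-- MacLane's condition for the separability of an extension. -/
def McL (p : ℕ) {k K : Type u} [Field k] [Field K] (ρ : k →+* K) : Prop :=
  ∀ (n : ℕ) (b : Fin n → k), (∀ d : Fin n → k, ∑ i, b i * d i ^ p = 0 → d = 0) →
    ∀ y : Fin n → K, ∑ i, ρ (b i) * y i ^ p = 0 → y = 0

/-- The residue field of a valuation ring over `k`. -/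
noncomputable abbrev rmap {k K : Type u} [Field k] [Field K] (ρ : k →+* K)
    (V : ValuationSubring K) (hρ : ∀ a, ρ a ∈ V.toSubring) : k →+* ResidueField V :=
  (residue V).comp (ρ.codRestrict V.toSubring hρ)

/-- A field with a place with a separable residue field is separable. -/
theorem McL.lift {p : ℕ} {k K : Type u} [Field k] [Field K] {ρ : k →+* K}
    {V : ValuationSubring K} {hρ : ∀ a, ρ a ∈ V.toSubring} (h : McL p (rmap ρ V hρ)) :
    McL p ρ := by
  intro n b hb y hy
  by_contra hy0
  obtain ⟨i0, hi0⟩ : ∃ i, y i ≠ 0 := by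
    by_contra h1
    push Not at h1
    exact hy0 (funext h1)
  obtain ⟨j, -, hj⟩ := Finset.exists_max_image Finset.univ (fun i => V.valuation (y i))
    ⟨i0, Finset.mem_univ _⟩
  have hyj : y j ≠ 0 := by
    intro h1
    have h2 := hj i0 (Finset.mem_univ _)
    rw [h1, map_zero, le_zero_iff, map_eq_zero] at h2
    exact hi0 h2
  have hz : ∀ i, y i / y j ∈ V := by
    intro i
    rw [← V.valuation_le_one_iff, map_div₀]
    refine div_le_one_of_le₀ (hj i (Finset.mem_univ _)) zero_le
  let z : Fin n → V := fun i => ⟨y i / y j, hz i⟩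
  have hsum : ∑ i, (ρ.codRestrict V.toSubring hρ (b i) : V) * z i ^ p = 0 := by
    apply Subtype.ext
    have h1 : ((∑ i, (ρ.codRestrict V.toSubring hρ (b i) : V) * z i ^ p : V) : K) =
        ∑ i, ρ (b i) * (y i / y j) ^ p := by
      change V.subtype (∑ i, (ρ.codRestrict V.toSubring hρ (b i) : V) * z i ^ p) = _
      rw [map_sum]
      rfl
    rw [h1]
    change _ = (0 : K)
    have h2 : ∑ i, ρ (b i) * (y i / y j) ^ p = (∑ i, ρ (b i) * y i ^ p) / y j ^ p := by
      rw [Finset.sum_div]
      exact Finset.sum_congr rfl fun i _ => by rw [div_pow, mul_div_assoc]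
    rw [h2, hy, zero_div]
  have h3 := h n b hb (fun i => residue V (z i)) (by
    have h4 := congrArg (residue V) hsum
    rw [map_sum, map_zero] at h4
    rw [← h4]
    exact Finset.sum_congr rfl fun i _ => by rw [map_mul, map_pow]; rfl)
  have h4 := congrFun h3 j
  have h5 : z j = 1 := Subtype.ext (div_self hyj)
  rw [Pi.zero_apply] at h4
  change residue V (z j) = 0 at h4
  rw [h5, map_one] at h4
  exact one_ne_zero h4

/-- MacLane's condition for linearly independent elements. -/
theorem McL.lin {p : ℕ} [Fact p.Prime] {k K : Type u} [Field k] [CharP k p] [Field K]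
    [Algebra k K] (h : McL p (algebraMap k K)) (s : Finset K)
    (hs : LinearIndepOn k _root_.id (s : Set K)) : LinearIndepOn k (· ^ p) (s : Set K) := by
  classical
  have hCK : CharP K p := charP_of_injective_algebraMap (algebraMap k K).injective p
  have hEK : ExpChar K p := .prime Fact.out
  have hEk : ExpChar k p := .prime Fact.out
  have hs' : ∀ g : s → k, ∑ i, g i • (i : K) = 0 → ∀ i, g i = 0 :=
    Fintype.linearIndependent_iff.1 hs
  refine Fintype.linearIndependent_iff.2 ?_
  intro c hc
  let R := (frobenius k p).fieldRange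
  obtain ⟨κ, a, ha, hspan, hlin⟩ := exists_linearIndependent' R (fun t : (s : Set K) => c t)
  have hfin : Finite κ := Finite.of_injective a ha
  have hft : Fintype κ := Fintype.ofFinite κ
  have hmem : ∀ t : (s : Set K), ∃ r : κ → k, c t = ∑ j, r j ^ p * c (a j) := by
    intro t
    have h1 : c t ∈ Submodule.span R (Set.range ((fun t : (s : Set K) => c t) ∘ a)) := by
      rw [hspan]
      exact Submodule.subset_span ⟨t, rfl⟩
    obtain ⟨r, hr⟩ := (Submodule.mem_span_range_iff_exists_fun R).1 h1
    have h2 : ∀ j, ∃ x : k, x ^ p = (r j : k) := fun j => (r j).2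
    choose x hx using h2
    refine ⟨x, ?_⟩
    rw [← hr]
    refine Finset.sum_congr rfl fun j _ => ?_
    rw [hx]
    rfl
  choose r hr using hmem
  let y : κ → K := fun j => ∑ t : (s : Set K), r t j • (t : K)
  have hyp : ∀ j, y j ^ p = ∑ t : (s : Set K), r t j ^ p • (t : K) ^ p := by
    intro j
    change frobenius K p (∑ t : (s : Set K), r t j • (t : K)) = _
    rw [map_sum]
    refine Finset.sum_congr rfl fun t _ => ?_
    rw [frobenius_def, smul_pow]
  have hy : ∑ j, algebraMap k K (c (a j)) * y j ^ p = 0 := by
    have h1 : ∑ j, algebraMap k K (c (a j)) * y j ^ p =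
        ∑ t : (s : Set K), (∑ j, r t j ^ p * c (a j)) • (t : K) ^ p := by
      simp_rw [hyp, Finset.mul_sum, Finset.sum_smul]
      rw [Finset.sum_comm]
      refine Finset.sum_congr rfl fun t _ => Finset.sum_congr rfl fun j _ => ?_
      rw [Algebra.smul_def, Algebra.smul_def, map_mul]
      ring
    rw [h1]
    rw [← hc]
    exact Finset.sum_congr rfl fun t _ => by rw [← hr t]
  have e := Fintype.equivFin κ
  have h3 := h (Fintype.card κ) (fun i => c (a (e.symm i))) (by
    intro d hd
    have h4 : ∑ j, (⟨d (e j) ^ p, ⟨d (e j), rfl⟩⟩ : R) • ((fun t : (s : Set K) => c t) ∘ a) j =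
        0 := by
      rw [← hd, ← Equiv.sum_comp e]
      refine Finset.sum_congr rfl fun j _ => ?_
      rw [Equiv.symm_apply_apply, mul_comm]
      rfl
    have h5 := Fintype.linearIndependent_iff.1 hlin _ h4
    funext i
    have h6 := congrArg Subtype.val (h5 (e.symm i))
    change d (e (e.symm i)) ^ p = 0 at h6
    rw [Equiv.apply_symm_apply] at h6
    exact pow_eq_zero_iff (Fact.out : p.Prime).ne_zero |>.1 h6) (fun i => y (e.symm i)) (by
    rw [← hy, ← Equiv.sum_comp e]
    exact Finset.sum_congr rfl fun j _ => by rw [Equiv.symm_apply_apply])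
  have hyz : ∀ j, y j = 0 := by
    intro j
    have := congrFun h3 (e j)
    rw [Equiv.symm_apply_apply] at this
    exact this
  intro t
  rw [hr t]
  refine Finset.sum_eq_zero fun j _ => ?_
  have h7 := hs' (fun t => r t j) (hyz j) t
  rw [h7, zero_pow (Fact.out : p.Prime).ne_zero, zero_mul]

/-- A finitely generated extension with MacLane's condition is separably generated. -/
theorem McL.sepGen {p : ℕ} [Fact p.Prime] {k K : Type u} [Field k] [CharP k p] [Field K]
    [Algebra k K] [Algebra.EssFiniteType k K] (h : McL p (algebraMap k K)) :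
    ∃ s : Finset K, IsTranscendenceBasis k ((↑) : s → K) ∧
      Algebra.IsSeparable (IntermediateField.adjoin k (s : Set K)) K :=
  have : ExpChar k p := .prime Fact.out
  exists_isTranscendenceBasis_and_isSeparable_of_linearIndepOn_pow_of_essFiniteType p Fact.out
    h.lin

/-- The trivial extension. -/
theorem McL.of_surj {p : ℕ} [Fact p.Prime] {k K : Type u} [Field k] [Field K] {ρ : k →+* K}
    (h : Function.Surjective ρ) : McL p ρ := by
  intro n b hb y hy
  choose d hd using fun i => h (y i)
  have h1 : ∑ i, b i * d i ^ p = 0 := by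
    apply ρ.injective
    rw [map_sum, map_zero, ← hy]
    exact Finset.sum_congr rfl fun i _ => by rw [map_mul, map_pow, hd]
  have h2 := hb d h1
  funext i
  rw [← hd, h2]
  simp

end Pool.Agent.H893.EC
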